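import Pool.Agent.H24.M68.G18
import Pool.Agent.H24.M68.G22

/-!
# Diffuse closed and diffuse non-closed directed currents do not coexist on the projective plane
-/

namespace Pool.Agent.Results.MP_6873ef_an.NoCoexistence

open Pool.Agent.H24.CU

/-- If a holomorphic foliation of the projective plane has a nonzero diffuse directed positive
closed current, then all its diffuse directed positive `dd^c`-closed currents are closed. -/
theorem result :
    ∀ (𝓕 : Foliation) (T S : PosCurrent),
      T.Directed 𝓕 → T.Closed → T.Diffuse → T.toLin ≠ 0 →
      S.Directed 𝓕 → S.DdcClosed → S.Diffuse → S.Closed :=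
  final_of
    (fun _ _ hF hsing _ _ hS hT dS dT zS zT hE hc =>
      (Pool.Agent.H85.DC.mainE hF hsing hS hT dS dT zS zT hE).2 hc)
    (fun A B ⟨K, h⟩ => FC76.good_of_mult A B K h)

end Pool.Agent.Results.MP_6873ef_an.NoCoexistence
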